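import Mathlib
import Pool.Agent.Q180.UW.StmL
import Pool.Agent.Q211.WT.Aln

/-!
# Project UW, job UALN: alignment of the places of a product
-/

set_option autoImplicit false
set_option linter.unusedSectionVars false

namespace Pool.Agent.Q222.UW

open Matrix Module Pool.Agent.H204R3.CM Pool.Agent.H194R3.CM Pool.Agent.W437.HC
  Pool.Agent.W437.HD Pool.Agent.W437.HQ Pool.Agent.W437.HP
open Pool.Agent.Y4.H (LZ Ct D_mem_LZ Dσ_mem_LZ)
open Pool.Agent.Y4.K (Pol Pr mu Eqv Iso pr qr)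
open Pool.Agent.Q60.D3 (AV ofZ)
open Pool.Agent.Q180.WT (PB)
open Pool.Agent.Q180.UW
open Pool.Agent.Q211.WT (P_same P_off P_tot P_com P_comT inj_mul inj_inj trace_inj Ct_inj)

section

variable {ι : Type} [Fintype ι] [DecidableEq ι] {g : ι → ℕ}
    (Z : ∀ i, Matrix (Fin (g i)) (Fin (g i)) ℂ) (hZ : ∀ i, (Z i)ᵀ = Z i)
    (hpos : ∀ i, (imM (Z i)).PosDef)

/-- The inclusion of the commutant of a block. -/
theorem Ct_up (M : Pol (bigD ℂ Z)) (i : ι)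
    (x : Matrix (Fin (g i) ⊕ Fin (g i)) (Fin (g i) ⊕ Fin (g i)) ℂ) (hx : Ct (Z i) x) :
    Ct (bigD ℂ Z) ((PB Z hZ hpos i)ᵀ * x * PB Z hZ hpos i) := by
  have Mi : Pol (Z i) := ⟨hZ i, hpos i⟩
  revert x
  refine Mi.Ct_induction ?_ ?_ ?_ ?_
  · intro ψ N hN
    exact Ct_inj Z hZ hpos M i ψ (endo_comm Mi.isUnit hN)
  · intro X _
    rw [Matrix.mul_zero, Matrix.zero_mul, Matrix.zero_mul, Matrix.mul_zero]
  · intro x y hx hy X hX
    rw [Matrix.mul_add, Matrix.add_mul, Matrix.add_mul, Matrix.mul_add, hx X hX, hy X hX]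
  · intro c x hx X hX
    rw [Matrix.mul_smul, Matrix.smul_mul, Matrix.smul_mul, Matrix.mul_smul, hx X hX]

/-- The restriction of the commutant to a block. -/
theorem Ct_dn (M : Pol (bigD ℂ Z)) (i : ι)
    (c : Matrix (Fin (NB g) ⊕ Fin (NB g)) (Fin (NB g) ⊕ Fin (NB g)) ℂ) (hc : Ct (bigD ℂ Z) c) :
    Ct (Z i) (PB Z hZ hpos i * c * (PB Z hZ hpos i)ᵀ) := by
  have Mi : Pol (Z i) := ⟨hZ i, hpos i⟩
  revert c
  refine M.Ct_induction ?_ ?_ ?_ ?_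
  · intro ψ' N hN
    have h4 := endo_comm M.isUnit hN
    obtain ⟨ψ'', hψ''⟩ : ∃ ψ'' : Matrix (Fin (g i) ⊕ Fin (g i)) (Fin (g i) ⊕ Fin (g i)) ℚ,
        ψ'' = (blocksOf Z hZ hpos).P i * ψ' * ((blocksOf Z hZ hpos).P i)ᵀ := ⟨_, rfl⟩
    have h5 : cq ψ'' = PB Z hZ hpos i * cq ψ' * (PB Z hZ hpos i)ᵀ := by
      change cK ℂ ψ'' = _
      rw [hψ'', cK_mul, cK_mul, cK_transpose]
      rfl
    rw [← h5]
    refine Mi.Ct_of_endo (endo_of_comm Mi.isUnit ?_)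
    rw [h5]
    calc PB Z hZ hpos i * cq ψ' * (PB Z hZ hpos i)ᵀ * DZ (Z i) =
        PB Z hZ hpos i * cq ψ' * ((PB Z hZ hpos i)ᵀ * DZ (Z i)) := by
          simp only [Matrix.mul_assoc]
    _ = PB Z hZ hpos i * (cq ψ' * DZ (bigD ℂ Z)) * (PB Z hZ hpos i)ᵀ := by
      rw [← P_comT]
      simp only [Matrix.mul_assoc]
    _ = (PB Z hZ hpos i * DZ (bigD ℂ Z)) * cq ψ' * (PB Z hZ hpos i)ᵀ := by
      rw [h4]
      simp only [Matrix.mul_assoc]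
    _ = _ := by
      rw [P_com]
      simp only [Matrix.mul_assoc]
  · intro X _
    rw [Matrix.mul_zero, Matrix.zero_mul, Matrix.zero_mul, Matrix.mul_zero]
  · intro x y hx hy X hX
    rw [Matrix.mul_add, Matrix.add_mul, Matrix.add_mul, Matrix.mul_add, hx X hX, hy X hX]
  · intro r x hx X hX
    rw [Matrix.mul_smul, Matrix.smul_mul, Matrix.smul_mul, Matrix.mul_smul, hx X hX]

/-- The projection to a block is rational. -/
theorem PB_map (i : ι) (σ : ℂ ≃+* ℂ) :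
    (PB Z hZ hpos i).map (σ : ℂ →+* ℂ) = PB Z hZ hpos i := by
  ext x y
  simp [cK]

/-- The trace of the conjugate of the Hodge operator on an idempotent of a block. -/
theorem trace_blk (i : ι) (σ : ℂ ≃+* ℂ)
    (x : Matrix (Fin (g i) ⊕ Fin (g i)) (Fin (g i) ⊕ Fin (g i)) ℂ) :
    trace (DZ (bigD ℂ Z) * ((PB Z hZ hpos i)ᵀ * x * PB Z hZ hpos i).map (σ : ℂ →+* ℂ)) =
      σ (trace ((DZ (Z i)).map ((σ.symm : ℂ ≃+* ℂ) : ℂ →+* ℂ) * x)) := by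
  have h1 : ((PB Z hZ hpos i)ᵀ * x * PB Z hZ hpos i).map (σ : ℂ →+* ℂ) =
      (PB Z hZ hpos i)ᵀ * x.map (σ : ℂ →+* ℂ) * PB Z hZ hpos i := by
    rw [Matrix.map_mul, Matrix.map_mul, Matrix.transpose_map, PB_map]
  have h2 : DZ (bigD ℂ Z) * ((PB Z hZ hpos i)ᵀ * x.map (σ : ℂ →+* ℂ) * PB Z hZ hpos i) =
      (PB Z hZ hpos i)ᵀ * (DZ (Z i) * x.map (σ : ℂ →+* ℂ)) * PB Z hZ hpos i := by
    rw [← Matrix.mul_assoc, ← Matrix.mul_assoc, P_comT]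
    simp only [Matrix.mul_assoc]
  rw [h1, h2, trace_inj]
  have h3 : σ (trace ((DZ (Z i)).map ((σ.symm : ℂ ≃+* ℂ) : ℂ →+* ℂ) * x)) =
      trace (((DZ (Z i)).map ((σ.symm : ℂ ≃+* ℂ) : ℂ →+* ℂ) * x).map (σ : ℂ →+* ℂ)) :=
    AddMonoidHom.map_trace (σ : ℂ →+* ℂ).toAddMonoidHom _
  rw [h3, Matrix.map_mul]
  congr 2
  ext a b
  simp

end

section

variable {𝒲 : Set (ℕ × ℕ)} {𝒞 : AV → Prop} {ι : Type} [Fintype ι] [DecidableEq ι] {g : ι → ℕ}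
    (Z : ∀ i, Matrix (Fin (g i)) (Fin (g i)) ℂ) (hZ : ∀ i, (Z i)ᵀ = Z i)
    (hpos : ∀ i, (imM (Z i)).PosDef) (Fa : ∀ i, Fam 𝒲 𝒞 (Z i) (hZ i) (hpos i))

theorem VQ_idem (i : ι) (r : (Fa i).R) :
    ((Fa i).V r * (Fa i).Q r) * ((Fa i).V r * (Fa i).Q r) = (Fa i).V r * (Fa i).Q r := by
  calc ((Fa i).V r * (Fa i).Q r) * ((Fa i).V r * (Fa i).Q r) =
      (Fa i).V r * ((Fa i).Q r * (Fa i).V r) * (Fa i).Q r := by simp only [Matrix.mul_assoc]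
  _ = _ := by rw [(Fa i).QV, Matrix.mul_one]

theorem VQ_trace (i : ι) (r : (Fa i).R) :
    trace ((Fa i).V r * (Fa i).Q r) = ((Fa i).n r : ℂ) := by
  rw [trace_mul_comm, (Fa i).QV, trace_one, Fintype.card_fin]

theorem n_pos (i : ι) (r : (Fa i).R) : 0 < (Fa i).n r := by
  rcases (Fa i).num r with h | ⟨h, -⟩ <;> omega

/-- The primitive idempotents of the factors. -/
theorem mkE (M : Pol (bigD ℂ Z)) (i : ι) (r : (Fa i).R) : ∃ E : Pr (bigD ℂ Z),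
    E.e = (PB Z hZ hpos i)ᵀ * ((Fa i).V r * (Fa i).Q r) * PB Z hZ hpos i := by
  refine ⟨⟨(PB Z hZ hpos i)ᵀ * ((Fa i).V r * (Fa i).Q r) * PB Z hZ hpos i, ?_, ?_, ?_, ?_⟩, rfl⟩
  · exact Ct_up Z hZ hpos M i _ ((Fa i).mem r)
  · rw [inj_mul, VQ_idem]
  · intro h
    have h1 := congrArg trace h
    rw [trace_inj, trace_zero, VQ_trace] at h1
    have h2 : (Fa i).n r = 0 := by exact_mod_cast h1
    have h3 := n_pos Z hZ hpos Fa i r
    omega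
  · intro c hc
    obtain ⟨lam, hlam⟩ := (Fa i).prim r _ (Ct_dn Z hZ hpos M i c hc)
    refine ⟨lam, ?_⟩
    calc (PB Z hZ hpos i)ᵀ * ((Fa i).V r * (Fa i).Q r) * PB Z hZ hpos i * c *
          ((PB Z hZ hpos i)ᵀ * ((Fa i).V r * (Fa i).Q r) * PB Z hZ hpos i) =
        (PB Z hZ hpos i)ᵀ * ((Fa i).V r * (Fa i).Q r * (PB Z hZ hpos i * c * (PB Z hZ hpos i)ᵀ) *
          ((Fa i).V r * (Fa i).Q r)) * PB Z hZ hpos i := by simp only [Matrix.mul_assoc]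
    _ = _ := by rw [hlam, Matrix.mul_smul, Matrix.smul_mul]

theorem mu_sum (M : Pol (bigD ℂ Z)) (i : ι) (r : (Fa i).R) (E : Pr (bigD ℂ Z))
    (hE : E.e = (PB Z hZ hpos i)ᵀ * ((Fa i).V r * (Fa i).Q r) * PB Z hZ hpos i) (σ : ℂ ≃+* ℂ) :
    mu (M.act σ E) + mu (M.bar (M.act σ E)) = (Fa i).n r := by
  rw [M.mu_act]
  have h := M.trace_e E
  rw [hE, trace_inj, VQ_trace] at h
  exact_mod_cast h.symm

theorem mu_sub (M : Pol (bigD ℂ Z)) (i : ι) (r : (Fa i).R) (E : Pr (bigD ℂ Z))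
    (hE : E.e = (PB Z hZ hpos i)ᵀ * ((Fa i).V r * (Fa i).Q r) * PB Z hZ hpos i) (σ : ℂ ≃+* ℂ) :
    (mu (M.act σ E) : ℤ) - (mu (M.bar (M.act σ E)) : ℤ) = ((Fa i).L r).s σ := by
  have h1 := M.trace_pr (M.act σ E)
  have h2 := M.trace_qr (M.act σ E)
  have h3 : trace (DZ (bigD ℂ Z) * (M.act σ E).e) = (mu (M.act σ E) : ℂ) -
      (mu (M.bar (M.act σ E)) : ℂ) := by
    rw [← h1, ← h2, ← trace_sub, Pool.Agent.Y4.K.pr_sub_qr']
  rw [M.act_e, hE, trace_blk, ← (Fa i).hs, map_intCast] at h3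
  exact_mod_cast h3.symm

/-- **Alignment.** -/
theorem aln : S_aln := by
  intro 𝒲 𝒞 ι _ _ g Z hZ hpos Fa M
  have hall : ∀ φ : Pr (bigD ℂ Z), ∃ (i : ι) (r : (Fa i).R) (E : Pr (bigD ℂ Z)),
      E.e = (PB Z hZ hpos i)ᵀ * ((Fa i).V r * (Fa i).Q r) * PB Z hZ hpos i ∧ Eqv E φ := by
    intro φ
    choose E hE using fun i r => mkE Z hZ hpos Fa M i r
    have hsum : ∑ s : Σ i, (Fa i).R, (E s.1 s.2).e = 1 := by
      rw [Fintype.sum_sigma, ← P_tot Z hZ hpos]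
      refine Finset.sum_congr rfl fun i _ => ?_
      calc ∑ r, (E i r).e = ∑ r, (PB Z hZ hpos i)ᵀ * ((Fa i).V r * (Fa i).Q r) * PB Z hZ hpos i :=
            Finset.sum_congr rfl fun r _ => hE i r
      _ = (PB Z hZ hpos i)ᵀ * (∑ r, (Fa i).V r * (Fa i).Q r) * PB Z hZ hpos i := by
        rw [Matrix.mul_sum, Matrix.sum_mul]
      _ = _ := by rw [(Fa i).tot, Matrix.mul_one]
    obtain ⟨⟨i, r⟩, h⟩ := M.eqv_family (ε := fun s : Σ i, (Fa i).R => E s.1 s.2) hsum φ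
    exact ⟨i, r, E i r, hE i r, h⟩
  -- the multiplicities of the conjugates of a place
  have hmu : ∀ φ : Pr (bigD ℂ Z), ∃ (i : ι) (r : (Fa i).R), ∀ σ : ℂ ≃+* ℂ,
      mu (M.act σ φ) + mu (M.bar (M.act σ φ)) = (Fa i).n r ∧
      (mu (M.act σ φ) : ℤ) - (mu (M.bar (M.act σ φ)) : ℤ) = ((Fa i).L r).s σ := by
    intro φ
    obtain ⟨i, r, E, hE, h⟩ := hall φ
    refine ⟨i, r, fun σ => ?_⟩
    rw [← M.mu_eqv (M.eqv_act h σ), ← M.mu_eqv (M.eqv_bar (M.eqv_act h σ))]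
    exact ⟨mu_sum Z hZ hpos Fa M i r E hE σ, mu_sub Z hZ hpos Fa M i r E hE σ⟩
  have hcop : ∀ φ : Pr (bigD ℂ Z), ∃ σ : ℂ ≃+* ℂ,
      Nat.Coprime (mu (M.act σ φ)) (mu (M.bar (M.act σ φ))) := by
    intro φ
    obtain ⟨i, r, h⟩ := hmu φ
    rcases (Fa i).num r with h1 | ⟨h3, -, σ, p, q, hpq, hs, hc⟩
    · refine ⟨RingEquiv.refl ℂ, ?_⟩
      have h2 := (h (RingEquiv.refl ℂ)).1
      rw [h1] at h2
      rcases Nat.eq_zero_or_pos (mu (M.act (RingEquiv.refl ℂ) φ)) with h4 | h4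
      · rw [h4, Nat.coprime_zero_left]
        omega
      · have h5 : mu (M.act (RingEquiv.refl ℂ) φ) = 1 := by omega
        rw [h5]
        exact Nat.coprime_one_left _
    · refine ⟨σ, ?_⟩
      obtain ⟨h4, h5⟩ := h σ
      rw [hs] at h5
      have h6 : mu (M.act σ φ) = p := by omega
      have h7 : mu (M.bar (M.act σ φ)) = q := by omega
      rw [h6, h7]
      exact hc
  have hpos' : ∀ φ : Pr (bigD ℂ Z), mu φ + mu (M.bar φ) ≠ 1 → ∀ σ : ℂ ≃+* ℂ,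
      0 < mu (M.act σ φ) ∧ 0 < mu (M.bar (M.act σ φ)) := by
    intro φ hne σ
    obtain ⟨i, r, h⟩ := hmu φ
    have h0 := M.mu_act σ φ
    obtain ⟨h4, h5⟩ := h σ
    rcases (Fa i).num r with h1 | ⟨h3, h6, -⟩
    · exfalso
      apply hne
      omega
    · obtain ⟨p, q, hp, hq, hpq, hs⟩ := h6 σ
      rw [hs] at h5
      omega
  refine ⟨hcop, ?_, ?_, ?_⟩
  · intro φ ψ _ _ _ hne h σ
    rcases h σ with h1 | ⟨h1, -⟩
    · exact h1
    · exfalso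
      obtain ⟨h2, h3⟩ := hpos' φ hne σ
      have h4 := Nat.mul_pos h2 h3
      omega
  · intro φ
    refine ⟨fun hb => ?_, ?_⟩
    · obtain ⟨i, r, h⟩ := hmu φ
      have heq : ∀ σ : ℂ ≃+* ℂ, mu (M.act σ φ) = mu (M.bar (M.act σ φ)) := by
        intro σ
        rw [M.bar_act]
        exact M.mu_eqv (M.eqv_act hb σ)
      rcases (Fa i).num r with h1 | ⟨h3, -, σ, p, q, hpq, hs, hc⟩
      · have h2 := (h (RingEquiv.refl ℂ)).1
        have h3 := heq (RingEquiv.refl ℂ)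
        omega
      · obtain ⟨h4, h5⟩ := h σ
        have h6 := heq σ
        rw [hs] at h5
        have h7 : p = q := by omega
        rw [h7, Nat.coprime_self] at hc
        omega
    · obtain ⟨i, r, h⟩ := hmu φ
      obtain ⟨h4, h5⟩ := h (RingEquiv.refl ℂ)
      rw [M.mu_act] at h4
      rw [h4]
      rcases (Fa i).num r with h1 | ⟨h3, -⟩ <;> omega
  · intro φ
    obtain ⟨i, r, E, hE, a, c, h⟩ := hall φ
    exact ⟨i, r, c, a, h.cb, h.ca, h.ab, by rw [h.ba, hE]⟩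

end

end Pool.Agent.Q222.UW
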