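import Mathlib
import Pool.Agent.Q180.UW.StmG
import Pool.Agent.Q128.D3.Conv

/-!
# Project WT, job CONV: the generated classes are Hodge classes
-/

namespace Pool.Agent.Q222.UW

open Pool.Agent.H204R3.CM Pool.Agent.Q180.UW
open Pool.Agent.Q128.D3 (hodge_unit hodge_zero hodge_add hodge_smul hodge_reindex hodge_cup
  hodge_pull hodge_push)

/-- JOB CONV. The generated classes are Hodge classes. -/
theorem conv : S_conv := by
  intro 𝒲 𝒞 X κ f h
  induction h with
  | unit f => exact fun _ => hodge_unit f
  | divisor hκ f hf => exact fun _ => hf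
  | weil hm f hf => exact fun _ => hf.2.1
  | cm B hB hY f hf => exact fun _ => hf
  | zero X κ => exact fun _ => hodge_zero X κ
  | add f g _ _ ihf ihg => exact fun h => hodge_add (ihf h) (ihg h)
  | smul a f _ ih => exact fun h => hodge_smul a (ih h)
  | reindex e f _ ih =>
    intro h
    exact hodge_reindex e (ih (Finite.of_equiv _ e.symm))
  | cup f g _ _ h hh ihf ihg => exact fun _ => hodge_cup (ihf inferInstance) (ihg inferInstance) h hh
  | pull h hh f _ ih => exact fun hfin => hodge_pull hh (ih hfin)
  | push b f _ g hg ih =>
    intro h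
    have := Module.Finite.finite_basis b
    exact hodge_push b (ih inferInstance) g hg

end Pool.Agent.Q222.UW
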