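import Mathlib
import Pool.Agent.Q176.D3.Gen1
import Pool.Agent.Q180.UW.StmG

/-!
# Project WT of helper180: JOB GEN1 (descent, linear combinations, renaming, products, pull-backs)

Adapted from project D3 (helper176).
-/

set_option autoImplicit false

namespace Pool.Agent.Q222.UW

open Pool.Agent.H204R3.CM Pool.Agent.Q180.UW
open Pool.Agent.Q60.D3 (AV IsHom cx mulF HasWeight conjF chi cxM)
open Pool.Agent.Q176.D3 (cx_apply exists_rho nsmul_mem_iff alt_smul alt_reindex alt_comp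
  mulF_apply cupC cupC_apply cupC_add_left cupC_add_right cupC_smul_left cupC_smul_right
  cupC_zero_left cupC_zero_right cupQ cupQ_apply units_smul cx_cupQ alt_perm alt_mulF)

theorem desc : S_desc := by
  intro 𝒲 𝒞 X κ f hf
  obtain ⟨ρ, hρ⟩ := exists_rho
  have key : ∀ F ∈ GC 𝒲 𝒞 X κ, ∀ c : ℂ, Gen 𝒲 𝒞 X κ (ρ.compAlternatingMap (c • F)) := by
    intro F hF
    induction hF using Submodule.span_induction with
    | mem F h =>
      obtain ⟨g, hg, rfl⟩ := h
      intro c
      have h1 : ρ.compAlternatingMap (c • cx g) = ρ c • g := by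
        ext v
        simp only [LinearMap.compAlternatingMap_apply, AlternatingMap.smul_apply, cx_apply,
          smul_eq_mul]
        have h2 : c * ((g v : ℚ) : ℂ) = (g v) • c := by
          rw [mul_comm, Rat.smul_def]
        rw [h2, map_smul, smul_eq_mul, mul_comm]
      rw [h1]
      exact Gen.smul _ _ hg
    | zero =>
      intro c
      have h1 : ρ.compAlternatingMap (c • (0 : X.H [⋀^κ]→ₗ[ℚ] ℂ)) = 0 := by
        ext v; simp
      rw [h1]
      exact Gen.zero X κ
    | add F G _ _ hF hG =>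
      intro c
      have h1 : ρ.compAlternatingMap (c • (F + G)) =
          ρ.compAlternatingMap (c • F) + ρ.compAlternatingMap (c • G) := by
        ext v; simp
      rw [h1]
      exact Gen.add _ _ (hF c) (hG c)
    | smul a F _ hF =>
      intro c
      rw [smul_smul]
      exact hF (c * a)
  have h := key _ hf 1
  have h1 : ρ.compAlternatingMap ((1 : ℂ) • cx f) = f := by
    ext v
    simp only [LinearMap.compAlternatingMap_apply, one_smul, cx_apply, hρ]
  rwa [h1] at h

theorem good_alt : S_good_alt := by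
  intro 𝒲 𝒞 X κ _ _ F
  unfold Good
  rw [AlternatingMap.coe_alternatization]
  exact nsmul_mem_iff _ _ (Nat.factorial_ne_zero _) _

theorem good_lin : S_good_lin := by
  intro 𝒲 𝒞 X κ _ _
  refine ⟨fun F G hF hG => ?_, fun c F hF => ?_, ?_⟩
  · unfold Good at *
    rw [map_add]
    exact Submodule.add_mem _ hF hG
  · unfold Good at *
    rw [alt_smul]
    exact Submodule.smul_mem _ _ hF
  · unfold Good
    rw [map_zero]
    exact Submodule.zero_mem _

theorem GC_reindex (𝒲 : Set (ℕ × ℕ)) (𝒞 : AV → Prop) (X : AV) {κ κ' : Type} (e : κ ≃ κ') (F : X.H [⋀^κ]→ₗ[ℚ] ℂ)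
    (hF : F ∈ GC 𝒲 𝒞 X κ) : F.domDomCongr e ∈ GC 𝒲 𝒞 X κ' := by
  induction hF using Submodule.span_induction with
  | mem F h =>
    obtain ⟨g, hg, rfl⟩ := h
    exact Submodule.subset_span ⟨g.domDomCongr e, Gen.reindex e g hg, rfl⟩
  | zero =>
    have : (0 : X.H [⋀^κ]→ₗ[ℚ] ℂ).domDomCongr e = 0 := rfl
    rw [this]
    exact Submodule.zero_mem _
  | add F G _ _ hF hG => exact Submodule.add_mem _ hF hG
  | smul a F _ hF => exact Submodule.smul_mem _ a hF

theorem good_reindex : S_good_reindex := by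
  intro 𝒲 𝒞 X κ κ' _ _ _ _ e F hF
  unfold Good at *
  rw [alt_reindex]
  exact GC_reindex 𝒲 𝒞 X e _ hF

theorem good_pull : S_good_pull := by
  intro 𝒲 𝒞 X Y κ _ _ h hh F hF
  unfold Good at *
  rw [alt_comp]
  revert hF
  generalize MultilinearMap.alternatization F = A
  intro hA
  induction hA using Submodule.span_induction with
  | mem F h' =>
    obtain ⟨g, hg, rfl⟩ := h'
    exact Submodule.subset_span ⟨g.compLinearMap h, Gen.pull h hh g hg, rfl⟩
  | zero =>
    have : (0 : Y.H [⋀^κ]→ₗ[ℚ] ℂ).compLinearMap h = 0 := rfl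
    rw [this]
    exact Submodule.zero_mem _
  | add F G _ _ hF hG => exact Submodule.add_mem _ hF hG
  | smul a F _ hF => exact Submodule.smul_mem _ a hF

section mul

variable {κ κ' : Type} [Fintype κ] [DecidableEq κ] [Fintype κ'] [DecidableEq κ']

theorem gen_cupQ (𝒲 : Set (ℕ × ℕ)) (𝒞 : AV → Prop) (X : AV) (f : X.H [⋀^κ]→ₗ[ℚ] ℚ) (g : X.H [⋀^κ']→ₗ[ℚ] ℚ)
    (hf : Gen 𝒲 𝒞 X κ f) (hg : Gen 𝒲 𝒞 X κ' g) : Gen 𝒲 𝒞 X (κ ⊕ κ') (cupQ f g) := by
  refine Gen.cup f g hf hg _ fun v => ?_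
  rw [cupQ_apply]
  refine Finset.sum_congr rfl fun σ _ => ?_
  rw [units_smul]

theorem GC_cup (𝒲 : Set (ℕ × ℕ)) (𝒞 : AV → Prop) (X : AV) (A : X.H [⋀^κ]→ₗ[ℚ] ℂ) (B : X.H [⋀^κ']→ₗ[ℚ] ℂ)
    (hA : A ∈ GC 𝒲 𝒞 X κ) (hB : B ∈ GC 𝒲 𝒞 X κ') : cupC A B ∈ GC 𝒲 𝒞 X (κ ⊕ κ') := by
  induction hA using Submodule.span_induction with
  | mem F h =>
    obtain ⟨f, hf, rfl⟩ := h
    induction hB using Submodule.span_induction with
    | mem G h =>
      obtain ⟨g, hg, rfl⟩ := h
      rw [← cx_cupQ]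
      exact Submodule.subset_span ⟨_, gen_cupQ 𝒲 𝒞 X f g hf hg, rfl⟩
    | zero =>
      rw [cupC_zero_right]
      exact Submodule.zero_mem _
    | add F G _ _ hF hG =>
      rw [cupC_add_right]
      exact Submodule.add_mem _ hF hG
    | smul a F _ hF =>
      rw [cupC_smul_right]
      exact Submodule.smul_mem _ a hF
  | zero =>
    rw [cupC_zero_left]
    exact Submodule.zero_mem _
  | add F G _ _ hF hG =>
    rw [cupC_add_left]
    exact Submodule.add_mem _ hF hG
  | smul a F _ hF =>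
    rw [cupC_smul_left]
    exact Submodule.smul_mem _ a hF

end mul

theorem good_mul : S_good_mul := by
  intro 𝒲 𝒞 X κ κ' _ _ _ _ F G hF hG
  unfold Good at *
  have h := GC_cup 𝒲 𝒞 X _ _ hF hG
  rw [alt_mulF] at h
  exact (nsmul_mem_iff _ _ (Nat.mul_ne_zero (Nat.factorial_ne_zero _) (Nat.factorial_ne_zero _))
    _).mp h

end Pool.Agent.Q222.UW
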