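import Mathlib
import Pool.Agent.Q176.D3.Gen1
import Pool.Agent.Q180.UW.StmG

/-!
# Project WT of helper180: JOB INS, contraction over an abelian variety

Adapted from project D3 (helper6).
-/

set_option autoImplicit false
set_option maxHeartbeats 400000

namespace Pool.Agent.Q222.UW

open Pool.Agent.H204R3.CM Finset Pool.Agent.Q180.UW
open Pool.Agent.Q60.D3 (AV IsHom cx mulF HasWeight conjF chi cxM)
open Pool.Agent.Q176.D3 (mulF_apply)

/-- The arguments with the basis inserted. -/
def arg (X E : AV) {K T : Type} (b : T → E.H) (v : K → X.H) : K ⊕ T → (X.prod E).H :=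
  Sum.elim (fun k => ((v k, 0) : X.H × E.H)) (fun k => ((0, b k) : X.H × E.H))

theorem arg_update (X E : AV) {K T : Type} [DecidableEq K] [DecidableEq T] (b : T → E.H)
    (v : K → X.H) (i : K) (x : X.H) :
    arg X E b (Function.update v i x) =
      Function.update (arg X E b v) (Sum.inl i) ((x, 0) : X.H × E.H) := by
  funext j
  rcases j with k | k
  · by_cases h : k = i
    · subst h
      rw [Function.update_self]
      change ((Function.update v k x k, 0) : X.H × E.H) = _
      rw [Function.update_self]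
    · have h' : (Sum.inl k : K ⊕ T) ≠ Sum.inl i := fun e => h (Sum.inl_injective e)
      rw [Function.update_of_ne h']
      change ((Function.update v i x k, 0) : X.H × E.H) = ((v k, 0) : X.H × E.H)
      rw [Function.update_of_ne h]
  · have h' : (Sum.inr k : K ⊕ T) ≠ Sum.inl i := fun e => by cases e
    rw [Function.update_of_ne h']
    rfl

open scoped Classical in
/-- Insertion of the basis in the last variables. -/
noncomputable def insA (X E : AV) {N K T : Type} [AddCommGroup N] [Module ℚ N] (b : T → E.H)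
    (A : (X.prod E).H [⋀^K ⊕ T]→ₗ[ℚ] N) : X.H [⋀^K]→ₗ[ℚ] N where
  toFun v := A (arg X E b v)
  map_update_add' := by
    intro inst v i x y
    have hi : inst = fun a b => Classical.propDecidable (a = b) := Subsingleton.elim _ _
    subst hi
    rw [arg_update, arg_update, arg_update]
    have := A.map_update_add (arg X E b v) (Sum.inl i) ((x, 0) : X.H × E.H) ((y, 0) : X.H × E.H)
    rw [← this]
    congr 2
    change ((x + y, 0) : X.H × E.H) = ((x, 0) : X.H × E.H) + ((y, 0) : X.H × E.H)
    simp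
  map_update_smul' := by
    intro inst v i c x
    have hi : inst = fun a b => Classical.propDecidable (a = b) := Subsingleton.elim _ _
    subst hi
    rw [arg_update, arg_update]
    have := A.map_update_smul (arg X E b v) (Sum.inl i) c ((x, 0) : X.H × E.H)
    rw [← this]
    congr 2
    change ((c • x, 0) : X.H × E.H) = c • ((x, 0) : X.H × E.H)
    simp
  map_eq_zero_of_eq' := by
    intro v i j h hij
    refine A.map_eq_zero_of_eq _ (i := Sum.inl i) (j := Sum.inl j) ?_ ?_
    · change ((v i, 0) : X.H × E.H) = ((v j, 0) : X.H × E.H)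
      rw [h]
    · exact fun e => hij (Sum.inl_injective e)

/-- The complex span of the generated classes is stable under push-forward. -/
theorem insA_mem (𝒲 : Set (ℕ × ℕ)) (𝒞 : AV → Prop) (X E : AV) (K T : Type) (b : Module.Basis T ℚ E.H)
    (A : (X.prod E).H [⋀^K ⊕ T]→ₗ[ℚ] ℂ) (hA : A ∈ GC 𝒲 𝒞 (X.prod E) (K ⊕ T)) :
    insA X E b A ∈ GC 𝒲 𝒞 X K := by
  unfold GC at hA
  induction hA using Submodule.span_induction with
  | mem A hA =>
    obtain ⟨f, hf, rfl⟩ := hA
    refine Submodule.subset_span ⟨insA X E b f, ?_, ?_⟩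
    · exact Gen.push b f hf _ fun v => rfl
    · ext v
      rfl
  | zero =>
    have : insA X E b (0 : (X.prod E).H [⋀^K ⊕ T]→ₗ[ℚ] ℂ) = 0 := by
      ext v
      rfl
    rw [this]
    exact Submodule.zero_mem _
  | add A B _ _ hA hB =>
    have : insA X E b (A + B) = insA X E b A + insA X E b B := by
      ext v
      rfl
    rw [this]
    exact Submodule.add_mem _ hA hB
  | smul c A _ hA =>
    have : insA X E b (c • A) = c • insA X E b A := by
      ext v
      rfl
    rw [this]
    exact Submodule.smul_mem _ _ hA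

theorem sum_perm {W P Q K T : Type} [AddCommGroup W] [Module ℚ W] [AddCommGroup P] [Module ℚ P]
    [Fintype K] [DecidableEq K] [Fintype T] [DecidableEq T] (b : T → Q) (ω : (T → Q) → ℂ)
    (M : MultilinearMap ℚ (fun _ : K => P) ℂ) (p1 : W → P) (p2 : W → Q)
    (Φ : MultilinearMap ℚ (fun _ : K ⊕ T => W) ℂ)
    (hΦ : ∀ u : K ⊕ T → W, Φ u = M (fun k => p1 (u (Sum.inl k))) *
      ω (fun a => p2 (u (Sum.inr a)))) (v : K → P)
    (w : K ⊕ T → W) (hw1 : ∀ k, p1 (w (Sum.inl k)) = v k) (hw2 : ∀ a, p1 (w (Sum.inr a)) = 0)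
    (hw3 : ∀ a, p2 (w (Sum.inr a)) = b a) :
    MultilinearMap.alternatization Φ w =
      (∑ σ : Equiv.Perm T, ((Equiv.Perm.sign σ : ℤ) : ℂ) * ω (fun a => b (σ a))) *
        MultilinearMap.alternatization M v := by
  rw [MultilinearMap.alternatization_apply, MultilinearMap.alternatization_apply]
  have h1 : ∑ p : Equiv.Perm K × Equiv.Perm T,
      (Equiv.Perm.sign (Equiv.Perm.sumCongr p.1 p.2)) •
        Φ.domDomCongr (Equiv.Perm.sumCongr p.1 p.2) w =
      ∑ σ : Equiv.Perm (K ⊕ T), Equiv.Perm.sign σ • Φ.domDomCongr σ w := by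
    refine Fintype.sum_of_injective
      (fun p : Equiv.Perm K × Equiv.Perm T => Equiv.Perm.sumCongr p.1 p.2) ?_ _ _ ?_ ?_
    · exact Equiv.Perm.sumCongrHom_injective
    · intro σ hσ
      have h2 : ¬ Set.MapsTo σ (Set.range (Sum.inl : K → K ⊕ T)) (Set.range Sum.inl) := by
        intro h
        obtain ⟨p, hp⟩ := Equiv.Perm.mem_sumCongrHom_range_of_perm_mapsTo_inl h
        exact hσ ⟨p, hp⟩
      have h3 : ∃ k : K, ∃ a : T, σ (Sum.inl k) = Sum.inr a := by
        by_contra hc
        push Not at hc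
        apply h2
        rintro _ ⟨k, rfl⟩
        rcases hs : σ (Sum.inl k) with x | a
        · exact ⟨x, rfl⟩
        · exact absurd hs (hc k a)
      obtain ⟨k, a, hk⟩ := h3
      have h4 : Φ.domDomCongr σ w = 0 := by
        rw [MultilinearMap.domDomCongr_apply, hΦ]
        rw [M.map_coord_zero k (by rw [hk, hw2]), zero_mul]
      rw [h4, smul_zero]
    · intro p
      rfl
  rw [← h1, Fintype.sum_prod_type, sum_mul, sum_comm]
  apply sum_congr rfl
  intro ρ _
  rw [mul_sum]
  apply sum_congr rfl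
  intro τ _
  rw [MultilinearMap.domDomCongr_apply, hΦ, MultilinearMap.domDomCongr_apply,
    Equiv.Perm.sign_sumCongr]
  simp only [Equiv.Perm.sumCongr_apply, Sum.map_inl, Sum.map_inr, hw1, hw3]
  rcases Int.units_eq_one_or (Equiv.Perm.sign ρ) with h | h <;>
    rcases Int.units_eq_one_or (Equiv.Perm.sign τ) with h' | h' <;>
      rw [h, h'] <;> simp <;> ring

/-- JOB INS. -/
theorem ins (_ : S_good_alt) (_ : S_good_lin) (h3 : S_good_reindex) (h4 : S_good_mul)
    (_ : S_good_pull) : S_ins := by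
  intro 𝒲 𝒞 X E κ κ' _ _ _ _ k k' b ε ε' hc F G F' G' hF' hG' gF gG
  have g1 := h4 𝒲 𝒞 (X.prod E) (κ ⊕ Fin k) (κ' ⊕ Fin k') F' G' gF gG
  have g2 := h3 𝒲 𝒞 (X.prod E) _ ((κ ⊕ κ') ⊕ (Fin k ⊕ Fin k'))
    (Equiv.sumSumSumComm κ (Fin k) κ' (Fin k')) (mulF F' G') g1
  have g3 := insA_mem 𝒲 𝒞 X E (κ ⊕ κ') (Fin k ⊕ Fin k') b _ g2
  set c : ℂ := ∑ σ : Equiv.Perm (Fin k ⊕ Fin k'), ((Equiv.Perm.sign σ : ℤ) : ℂ) *
      (ε (fun a => b (σ (Sum.inl a))) * ε' (fun a => b (σ (Sum.inr a)))) with hcdef
  have g4 : insA X E b (MultilinearMap.alternatization ((mulF F' G').domDomCongr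
      (Equiv.sumSumSumComm κ (Fin k) κ' (Fin k')))) =
      c • MultilinearMap.alternatization (mulF F G) := by
    ext v
    have := sum_perm (W := (X.prod E).H) (P := X.H) (Q := E.H) (K := κ ⊕ κ') (T := Fin k ⊕ Fin k') b
      (fun w => ε (fun a => w (Sum.inl a)) * ε' (fun a => w (Sum.inr a))) (mulF F G)
      (fun u : X.H × E.H => u.1) (fun u : X.H × E.H => u.2)
      ((mulF F' G').domDomCongr (Equiv.sumSumSumComm κ (Fin k) κ' (Fin k'))) (by
        intro u
        rw [MultilinearMap.domDomCongr_apply, mulF_apply, hF', hG', mulF_apply]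
        have e1 : (fun a => (u (Equiv.sumSumSumComm κ (Fin k) κ' (Fin k')
            (Sum.inl (Sum.inl a))) : X.H × E.H).1) =
            fun a => (u (Sum.inl (Sum.inl a)) : X.H × E.H).1 := rfl
        have e2 : (fun a => (u (Equiv.sumSumSumComm κ (Fin k) κ' (Fin k')
            (Sum.inr (Sum.inl a))) : X.H × E.H).1) =
            fun a => (u (Sum.inl (Sum.inr a)) : X.H × E.H).1 := rfl
        have e3 : (fun a => (u (Equiv.sumSumSumComm κ (Fin k) κ' (Fin k')
            (Sum.inl (Sum.inr a))) : X.H × E.H).2) =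
            fun a => (u (Sum.inr (Sum.inl a)) : X.H × E.H).2 := rfl
        have e4 : (fun a => (u (Equiv.sumSumSumComm κ (Fin k) κ' (Fin k')
            (Sum.inr (Sum.inr a))) : X.H × E.H).2) =
            fun a => (u (Sum.inr (Sum.inr a)) : X.H × E.H).2 := rfl
        rw [e1, e2, e3, e4]
        ring) v (arg X E b v) (fun _ => rfl) (fun _ => rfl) (fun _ => rfl)
    exact this
  rw [g4] at g3
  have g5 := Submodule.smul_mem _ c⁻¹ g3
  rw [smul_smul, inv_mul_cancel₀ hc, one_smul] at g5
  exact g5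

end Pool.Agent.Q222.UW
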