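import Mathlib
import Pool.Agent.Q180.UW.StmL

/-!
# Project UW, job ULAB: letters with an involution can be numbered as the letters of labels
-/

namespace Pool.Agent.Q222.UW

open Pool.Agent.Q180.UW
open Pool.Agent.Q59.GC (Labels Letter letter_ext dual_of_not)

section sym

variable {α : Type} [Fintype α] [DecidableEq α]

/-- The representatives of the orbits. -/
abbrev Rep (f : α → α) : Type := {x : α // Fintype.equivFin α x < Fintype.equivFin α (f x)}

/-- Splitting into two halves. -/
noncomputable def splitE (f : α → α) (hf : ∀ x, f (f x) = x) (hne : ∀ x, f x ≠ x) :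
    α ≃ Rep f ⊕ Rep f where
  toFun x := if h : Fintype.equivFin α x < Fintype.equivFin α (f x) then Sum.inl ⟨x, h⟩ else
    Sum.inr ⟨f x, by
      rw [hf]
      exact lt_of_le_of_ne (not_lt.1 h) fun e => hne x ((Fintype.equivFin α).injective e)⟩
  invFun := Sum.elim (fun a => a.1) (fun a => f a.1)
  left_inv x := by
    dsimp only
    split_ifs with h
    · rfl
    · exact hf x
  right_inv y := by
    rcases y with ⟨a, ha⟩ | ⟨a, ha⟩
    · simp only [Sum.elim_inl]
      rw [dif_pos ha]
    · simp only [Sum.elim_inr]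
      have h : ¬ Fintype.equivFin α (f a) < Fintype.equivFin α (f (f a)) := by
        rw [hf]; exact not_lt.2 ha.le
      rw [dif_neg h]
      congr 1
      exact Subtype.ext (hf a)

theorem exists_sym (f : α → α) (hf : ∀ x, f (f x) = x) (hne : ∀ x, f x ≠ x) :
    Even (Fintype.card α) ∧ ∃ e : α ≃ Fin (Fintype.card α),
      ∀ x, (e (f x) : ℕ) + 1 + (e x : ℕ) = Fintype.card α := by
  have hcard : Fintype.card (Rep f) + Fintype.card (Rep f) = Fintype.card α := by
    rw [← Fintype.card_sum]; exact (Fintype.card_congr (splitE f hf hne)).symm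
  refine ⟨⟨_, hcard.symm⟩, (splitE f hf hne).trans (((Fintype.equivFin (Rep f)).sumCongr
    ((Fintype.equivFin (Rep f)).trans Fin.revPerm)).trans
      (finSumFinEquiv.trans (finCongr hcard))), ?_⟩
  have key : ∀ x, Fintype.equivFin α x < Fintype.equivFin α (f x) →
      ((((splitE f hf hne).trans (((Fintype.equivFin (Rep f)).sumCongr
        ((Fintype.equivFin (Rep f)).trans Fin.revPerm)).trans
          (finSumFinEquiv.trans (finCongr hcard)))) (f x) : Fin _) : ℕ) + 1 +
      ((((splitE f hf hne).trans (((Fintype.equivFin (Rep f)).sumCongr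
        ((Fintype.equivFin (Rep f)).trans Fin.revPerm)).trans
          (finSumFinEquiv.trans (finCongr hcard)))) x : Fin _) : ℕ) = Fintype.card α := by
    intro x hx
    have h1 : splitE f hf hne x = Sum.inl ⟨x, hx⟩ := dif_pos hx
    have hx' : ¬ Fintype.equivFin α (f x) < Fintype.equivFin α (f (f x)) := by
      rw [hf]; exact not_lt.2 hx.le
    have h2 : splitE f hf hne (f x) = Sum.inr ⟨x, hx⟩ := by
      refine (dif_neg hx').trans ?_
      congr 1
      exact Subtype.ext (hf x)
    simp only [Equiv.trans_apply, h1, h2, Equiv.sumCongr_apply, Sum.map_inl, Sum.map_inr,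
      finSumFinEquiv_apply_left, finSumFinEquiv_apply_right, finCongr_apply, Fin.val_cast,
      Fin.val_natAdd, Fin.val_castAdd, Fin.revPerm_apply, Fin.val_rev]
    have h3 := (Fintype.equivFin (Rep f) ⟨x, hx⟩).2
    omega
  intro x
  by_cases hx : Fintype.equivFin α x < Fintype.equivFin α (f x)
  · exact key x hx
  · have hx' : Fintype.equivFin α (f x) < Fintype.equivFin α (f (f x)) := by
      rw [hf]
      exact lt_of_le_of_ne (not_lt.1 hx) fun e => hne x ((Fintype.equivFin α).injective e)
    have h := key (f x) hx'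
    rw [hf] at h
    omega

end sym

section

variable {P R : Type} [Fintype P] [DecidableEq P] [Fintype R] [DecidableEq R] {cls : R → P}
    {inv : R → R} {b : P → P}

/-- The involution as a bijection of the fibres. -/
def invE (hb : ∀ p, b (b p) = p) (hi : ∀ x, inv (inv x) = x) (hc : ∀ x, cls (inv x) = b (cls x))
    (p : P) : {x // cls x = p} ≃ {x // cls x = b p} where
  toFun x := ⟨inv x.1, by rw [hc, x.2]⟩
  invFun x := ⟨inv x.1, by rw [hc, x.2, hb]⟩
  left_inv x := Subtype.ext (hi x.1)
  right_inv x := Subtype.ext (hi x.1)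

theorem card_b (hb : ∀ p, b (b p) = p) (hi : ∀ x, inv (inv x) = x)
    (hc : ∀ x, cls (inv x) = b (cls x)) (p : P) :
    Fintype.card {x // cls x = b p} = Fintype.card {x // cls x = p} :=
  (Fintype.card_congr (invE hb hi hc p)).symm

/-- The involution of a selfdual fibre. -/
def invF (hc : ∀ x, cls (inv x) = b (cls x)) (p : P) (h : b p = p) (x : {x // cls x = p}) :
    {x // cls x = p} := ⟨inv x.1, by rw [hc, x.2, h]⟩

theorem selfF (hi : ∀ x, inv (inv x) = x) (hne : ∀ x, inv x ≠ x)
    (hc : ∀ x, cls (inv x) = b (cls x)) (p : P) (h : b p = p) :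
    Even (Fintype.card {x // cls x = p}) ∧ ∃ e : {x // cls x = p} ≃ Fin (Fintype.card {x // cls x = p}),
      ∀ x, (e (invF hc p h x) : ℕ) + 1 + (e x : ℕ) = Fintype.card {x // cls x = p} :=
  exists_sym (invF hc p h) (fun x => Subtype.ext (hi x.1)) (fun x e => hne x.1 (congrArg Subtype.val e))

/-- The exponents. -/
noncomputable def exn (cls : R → P) (b : P → P) (p : P) : Multiset (ZMod 3) :=
  if Fintype.card {x // cls x = p} % 2 = 0 then 0
  else if Fintype.equivFin P p < Fintype.equivFin P (b p) then {1, 1, 1} else {-1, -1, -1}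

/-- Half the number of the letters that are left. -/
def hlf (cls : R → P) (p : P) : ℤ :=
  if Fintype.card {x // cls x = p} % 2 = 0 then ((Fintype.card {x // cls x = p} / 2 : ℕ) : ℤ)
  else ((Fintype.card {x // cls x = p} / 2 : ℕ) : ℤ) - 1

/-- The labels. -/
noncomputable def lb (hb : ∀ p, b (b p) = p) (hi : ∀ x, inv (inv x) = x)
    (hc : ∀ x, cls (inv x) = b (cls x)) (hne : ∀ x, inv x ≠ x) : Labels 3 P where
  star := b
  star_star := hb
  orth := fun _ => false
  orth_star := fun i h => absurd h (by simp)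
  dim := fun p => Fintype.card {x // cls x = p}
  dim_star := card_b hb hi hc
  ex := exn cls b
  half := hlf cls
  dim_eq := by
    intro p
    unfold exn hlf
    have h := Nat.div_add_mod (Fintype.card {x // cls x = p}) 2
    rcases Nat.mod_two_eq_zero_or_one (Fintype.card {x // cls x = p}) with h1 | h1
    · rw [if_pos h1, if_pos h1]
      simp only [Multiset.card_zero]
      omega
    · have h1' : ¬ Fintype.card {x // cls x = p} % 2 = 0 := by omega
      rw [if_neg h1', if_neg h1']
      split_ifs
      · change _ = ((3 : ℕ) : ℤ) + _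
        omega
      · change _ = ((3 : ℕ) : ℤ) + _
        omega
  ex_ne := by
    intro p
    unfold exn
    split_ifs
    · simp
    · change (0 : ZMod 3) ∉ ({1, 1, 1} : Multiset (ZMod 3))
      decide
    · change (0 : ZMod 3) ∉ ({-1, -1, -1} : Multiset (ZMod 3))
      decide
  ex_sum := by
    intro p
    unfold exn
    split_ifs
    · simp
    · change ({1, 1, 1} : Multiset (ZMod 3)).sum = 0
      decide
    · change ({-1, -1, -1} : Multiset (ZMod 3)).sum = 0
      decide
  ex_star := by
    intro p
    unfold exn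
    rw [card_b hb hi hc p, hb p]
    rcases Nat.mod_two_eq_zero_or_one (Fintype.card {x // cls x = p}) with h1 | h1
    · rw [if_pos h1, if_pos h1]
      rfl
    · have h1' : ¬ Fintype.card {x // cls x = p} % 2 = 0 := by omega
      rw [if_neg h1', if_neg h1']
      have hbp : b p ≠ p := by
        intro h
        have := (selfF hi hne hc p h).1
        rw [Nat.even_iff] at this
        omega
      have hbo : Fintype.equivFin P (b p) ≠ Fintype.equivFin P p := fun h =>
        hbp ((Fintype.equivFin P).injective h)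
      rcases lt_or_gt_of_ne hbo with h3 | h3
      · rw [if_pos h3, if_neg (not_lt.2 h3.le)]
        change ({1, 1, 1} : Multiset (ZMod 3)) =
          Multiset.map (fun a => -a) ({-1, -1, -1} : Multiset (ZMod 3))
        decide
      · rw [if_neg (not_lt.2 h3.le), if_pos h3]
        rfl

/-- The numbering of the fibres. -/
noncomputable def num (hb : ∀ p, b (b p) = p) (hi : ∀ x, inv (inv x) = x)
    (hc : ∀ x, cls (inv x) = b (cls x)) (hne : ∀ x, inv x ≠ x) (p : P) :
    {x // cls x = p} ≃ Fin (Fintype.card {x // cls x = p}) :=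
  if h : b p = p then (selfF hi hne hc p h).2.choose
  else if Fintype.equivFin P (b p) < Fintype.equivFin P p then
    (invE hb hi hc p).trans ((Fintype.equivFin {x // cls x = b p}).trans
      ((finCongr (card_b hb hi hc p)).trans Fin.revPerm))
  else Fintype.equivFin {x // cls x = p}

theorem num_pos (hb : ∀ p, b (b p) = p) (hi : ∀ x, inv (inv x) = x)
    (hc : ∀ x, cls (inv x) = b (cls x)) (hne : ∀ x, inv x ≠ x) (p : P) (h0 : b p ≠ p)
    (h : Fintype.equivFin P (b p) < Fintype.equivFin P p) (x : {x // cls x = p}) :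
    (num hb hi hc hne p x : ℕ) = Fintype.card {x // cls x = p} - 1 -
      (Fintype.equivFin {x // cls x = b p} (invE hb hi hc p x) : ℕ) := by
  unfold num
  rw [dif_neg h0, if_pos h]
  simp only [Equiv.trans_apply, Fin.revPerm_apply, Fin.val_rev, finCongr_apply, Fin.val_cast]
  omega

theorem num_neg (hb : ∀ p, b (b p) = p) (hi : ∀ x, inv (inv x) = x)
    (hc : ∀ x, cls (inv x) = b (cls x)) (hne : ∀ x, inv x ≠ x) (p : P) (h0 : b p ≠ p)
    (h : ¬ Fintype.equivFin P (b p) < Fintype.equivFin P p) (x : {x // cls x = p}) :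
    num hb hi hc hne p x = Fintype.equivFin {x // cls x = p} x := by
  unfold num
  rw [dif_neg h0, if_neg h]

theorem eqv_val {p q : P} (h : p = q) (x : R) (hx : cls x = p) (hx' : cls x = q) :
    (Fintype.equivFin {x // cls x = p} ⟨x, hx⟩ : ℕ) =
      Fintype.equivFin {x // cls x = q} ⟨x, hx'⟩ := by
  subst h
  rfl

theorem num_inv (hb : ∀ p, b (b p) = p) (hi : ∀ x, inv (inv x) = x) (hne : ∀ x, inv x ≠ x)
    (hc : ∀ x, cls (inv x) = b (cls x)) (x : R) :
    (num hb hi hc hne (cls (inv x)) ⟨inv x, rfl⟩ : ℕ) + 1 + (num hb hi hc hne (cls x) ⟨x, rfl⟩ : ℕ) =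
      Fintype.card {y // cls y = cls x} := by
  have hq : ∀ (q : P) (hq : cls (inv x) = q), (num hb hi hc hne (cls (inv x)) ⟨inv x, rfl⟩ : ℕ) =
      num hb hi hc hne q ⟨inv x, hq⟩ := by
    intro q hq
    subst hq
    rfl
  rw [hq (b (cls x)) (hc x)]
  by_cases h1 : b (cls x) = cls x
  · have h3 : ∀ (q : P) (hq : q = cls x) (h : cls (inv x) = q),
        (num hb hi hc hne q ⟨inv x, h⟩ : ℕ) = num hb hi hc hne (cls x) ⟨inv x, h.trans hq⟩ := by
      intro q hq h
      subst hq
      rfl
    rw [h3 (b (cls x)) h1 (hc x)]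
    have h4 : num hb hi hc hne (cls x) = (selfF hi hne hc (cls x) h1).2.choose := dif_pos h1
    rw [h4]
    exact (selfF hi hne hc (cls x) h1).2.choose_spec ⟨x, rfl⟩
  · have hbo : Fintype.equivFin P (b (cls x)) ≠ Fintype.equivFin P (cls x) := fun h =>
      h1 ((Fintype.equivFin P).injective h)
    rcases lt_or_gt_of_ne hbo with h3 | h3
    · rw [num_pos hb hi hc hne (cls x) h1 h3, num_neg hb hi hc hne (b (cls x)) (by rw [hb]; exact Ne.symm h1)
        (by rw [hb]; exact not_lt.2 h3.le)]
      have h5 := (Fintype.equivFin {y // cls y = b (cls x)} ⟨inv x, hc x⟩).2.trans_eq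
        (card_b hb hi hc (cls x))
      have h6 : invE hb hi hc (cls x) ⟨x, rfl⟩ = ⟨inv x, hc x⟩ := rfl
      rw [h6]
      have h7 : 0 < Fintype.card {y // cls y = cls x} := by omega
      omega
    · rw [num_neg hb hi hc hne (cls x) h1 (not_lt.2 h3.le), num_pos hb hi hc hne (b (cls x))
        (by rw [hb]; exact Ne.symm h1) (by rw [hb]; exact h3), card_b hb hi hc (cls x)]
      have h5 := (Fintype.equivFin {y // cls y = cls x} ⟨x, rfl⟩).2
      have h6 : (Fintype.equivFin {y // cls y = b (b (cls x))}
          (invE hb hi hc (b (cls x)) ⟨inv x, hc x⟩) : ℕ) =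
          Fintype.equivFin {y // cls y = cls x} ⟨x, rfl⟩ := by
        have h7 : invE hb hi hc (b (cls x)) ⟨inv x, hc x⟩ = ⟨x, (hb (cls x)).symm⟩ :=
          Subtype.ext (hi x)
        rw [h7]
        exact eqv_val (hb (cls x)) x _ rfl
      rw [h6]
      omega

end

/-- JOB LAB. Letters with an involution can be numbered as the letters of labels. -/
theorem lab : S_lab := by
  intro P R _ _ _ _ cls inv b hb hi hne hc
  refine ⟨lb hb hi hc hne, (Equiv.sigmaFiberEquiv cls).symm.trans
    (Equiv.sigmaCongrRight fun p => num hb hi hc hne p), fun _ => rfl, fun _ => rfl, fun _ => rfl, ?_⟩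
  intro x
  rw [dual_of_not (by exact Bool.false_ne_true)]
  refine letter_ext (hc x).symm ?_
  have h := num_inv hb hi hne hc x
  have h3 := (num hb hi hc hne (cls x) ⟨x, rfl⟩).2
  change (Fin.rev (num hb hi hc hne (cls x) ⟨x, rfl⟩) : ℕ) = (num hb hi hc hne (cls (inv x)) ⟨inv x, rfl⟩ : ℕ)
  rw [Fin.val_rev]
  omega

end Pool.Agent.Q222.UW
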