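import Mathlib
import Pool.Agent.Q180.UW.StmL

set_option autoImplicit false

/-!
# Project UW, job UTR: transport of the unitary type
-/

namespace Pool.Agent.Q222.UW

open Polynomial Pool.Agent.H204R3.CM Pool.Agent.Q60.D3 Pool.Agent.Q180.UW

lemma mult_conj {T T' : Type} [AddCommGroup T] [Module ℂ T] [AddCommGroup T'] [Module ℂ T']
    (c : T ≃ₗ[ℂ] T') (C : T →ₗ[ℂ] T) (μ : ℂ) : mult (c.conj C) μ = mult C μ := by
  unfold mult
  have h : LinearMap.ker (c.conj C - μ • (LinearMap.id : T' →ₗ[ℂ] T')) =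
      (LinearMap.ker (C - μ • (LinearMap.id : T →ₗ[ℂ] T))).map (c : T →ₗ[ℂ] T') := by
    ext x
    rw [Submodule.mem_map_equiv, LinearMap.mem_ker, LinearMap.mem_ker, LinearMap.sub_apply,
      LinearMap.sub_apply, LinearMap.smul_apply, LinearMap.smul_apply, LinearMap.id_apply,
      LinearMap.id_apply, LinearEquiv.conj_apply_apply]
    constructor
    · intro h
      have h2 := congrArg c.symm h
      simpa using h2
    · intro h
      have h2 := congrArg c h
      simpa using h2
  rw [h]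
  exact LinearEquiv.finrank_map_eq c _

lemma aeval_conj {H H' : Type} [AddCommGroup H] [Module ℚ H] [AddCommGroup H'] [Module ℚ H']
    (a : H ≃ₗ[ℚ] H') (φ : Module.End ℚ H) (q : ℚ[X]) :
    aeval (a.conj φ) q = a.conj (aeval φ q) := by
  have h := Polynomial.aeval_algHom_apply (LinearEquiv.conjAlgEquiv ℚ a).toAlgHom φ q
  exact h

theorem utr_aux (A B : AV) (a : A.H ≃ₗ[ℚ] B.H) (c : A.T ≃ₗ[ℂ] B.T)
    (hac : ∀ w, c (A.per w) = B.per (a w)) (e M : ℕ) (hA : IsUnitary A e M) :
    IsUnitary B e M := by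
  obtain ⟨P, φ, C, n, hP, hC, hφP, hdim, hn, hcen, hmult, μ, hμ, hcop⟩ := hA
  have hac' : ∀ w, c.symm (B.per w) = A.per (a.symm w) := by
    intro w
    rw [LinearEquiv.symm_apply_eq, hac, LinearEquiv.apply_symm_apply]
  refine ⟨P, a.conj φ, c.conj C, n, hP, fun w => ?_, ?_, ?_, hn, ?_, ?_, μ, hμ, ?_⟩
  · rw [LinearEquiv.conj_apply_apply, LinearEquiv.conj_apply_apply, hac', hC, hac]
  · rw [aeval_conj, hφP, map_zero]
  · rw [← hdim, LinearEquiv.finrank_eq c]
  · intro h hh hcomm
    obtain ⟨D, hD⟩ := hh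
    obtain ⟨q, hq⟩ := hcen (a.symm.conj h) ⟨c.symm.conj D, fun w => by
      rw [LinearEquiv.conj_apply_apply, LinearEquiv.conj_apply_apply]
      have e1 : c.symm.symm (A.per w) = B.per (a.symm.symm w) := hac w
      rw [e1, hD, hac']⟩ (by
      ext w
      have h1 := LinearMap.congr_fun hcomm (a w)
      simp only [LinearMap.comp_apply, LinearEquiv.conj_apply_apply, LinearEquiv.symm_symm,
        LinearEquiv.symm_apply_apply] at h1 ⊢
      rw [h1, LinearEquiv.symm_apply_apply])
    refine ⟨q, ?_⟩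
    rw [aeval_conj, ← hq]
    ext w
    simp
  · intro ν hν
    rw [mult_conj]
    exact hmult ν hν
  · rw [mult_conj, mult_conj]
    exact hcop

theorem utr : S_utr := utr_aux

end Pool.Agent.Q222.UW
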